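import Pool.Agent.Lib.MP_6cc975_al.Group

set_option autoImplicit false

namespace Pool.Agent.Results.MP_6cc975_al.SpecialNoSatellitesRigid

open Pool.Agent.Lib.MP_6cc975_al

/-- Every special mixed graph with no satellites is rigid. -/
theorem result (V : Type) [Finite V] (Γ : MixedGraph V) (hs : Γ.Special) (hn : Γ.NoSatellites) :
    Γ.Rigid :=
  MixedGraph.rigid_of_special_noSatellites Γ hs hn

end Pool.Agent.Results.MP_6cc975_al.SpecialNoSatellitesRigid
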